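import Pool.Agent.H705.FP.Stm

/-! # Project FP (helper705): the primitive of the series (helper252) -/

set_option autoImplicit false

namespace Pool.Agent.H252.FP

open MeasureTheory ProbabilityTheory Filter Topology Finset
open Pool.Agent.H705 Pool.Agent.H705.FP

theorem wv_cont (a β γ : ℕ → ℝ) (n : ℕ) : Continuous (wv a β γ n) := by
  unfold wv
  fun_prop

theorem int_eq (a β γ : ℕ → ℝ) (n : ℕ) (hγ : 0 < γ n) (t t' : ℝ) :
    ∫ y in t..t', wv a β γ n y =
      a n * Real.sin (γ n * t' + β n) / γ n - a n * Real.sin (γ n * t + β n) / γ n := by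
  have h1 : ∀ y : ℝ, HasDerivAt (fun y => a n * Real.sin (γ n * y + β n) / γ n) (wv a β γ n y) y := by
    intro y
    have h2 : HasDerivAt (fun y : ℝ => γ n * y + β n) (γ n) y := by
      have := ((hasDerivAt_id y).const_mul (γ n)).add_const (β n)
      simpa using this
    have h3 := ((h2.sin).const_mul (a n)).div_const (γ n)
    refine h3.congr_deriv ?_
    unfold wv
    field_simp
  exact intervalIntegral.integral_eq_sub_of_hasDerivAt (fun y _ => h1 y)
    ((wv_cont a β γ n).intervalIntegrable _ _)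

theorem int_le (a β γ : ℕ → ℝ) (n : ℕ) (ha : 0 ≤ a n) (hγ : Real.sqrt ((n : ℝ) + 2) ≤ γ n)
    (t t' : ℝ) : ‖∫ y in t..t', wv a β γ n y‖ ≤ 2 * (a n / Real.sqrt ((n : ℝ) + 2)) := by
  have h0 : 0 < Real.sqrt ((n : ℝ) + 2) := Real.sqrt_pos.2 (by positivity)
  have hγ0 : 0 < γ n := h0.trans_le hγ
  have h1 : ∀ x : ℝ, |a n * Real.sin x / γ n| ≤ a n / Real.sqrt ((n : ℝ) + 2) := by
    intro x
    rw [abs_div, abs_mul, abs_of_nonneg ha, abs_of_pos hγ0]
    calc a n * |Real.sin x| / γ n ≤ a n * 1 / Real.sqrt ((n : ℝ) + 2) := by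
          refine div_le_div₀ (by positivity) ?_ h0 hγ
          exact mul_le_mul_of_nonneg_left (Real.abs_sin_le_one x) ha
      _ = _ := by rw [mul_one]
  rw [int_eq a β γ n hγ0, Real.norm_eq_abs]
  have h2 := h1 (γ n * t' + β n)
  have h3 := h1 (γ n * t + β n)
  have h4 := abs_sub (a n * Real.sin (γ n * t' + β n) / γ n) (a n * Real.sin (γ n * t + β n) / γ n)
  linarith

theorem T_PRI (hAMS : P_AMS) : P_PRI := by
  intro a β γ hA hγ
  have ha := hA.1
  obtain ⟨s, hs⟩ : ∃ s : ℕ → ℝ, s = fun n => a n / Real.sqrt ((n : ℝ) + 2) := ⟨_, rfl⟩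
  have hs0 : ∀ n, 0 ≤ s n := by
    intro n
    rw [hs]
    exact div_nonneg (ha n) (Real.sqrt_nonneg _)
  have hAMS' : ∀ m : ℕ, ∃ C : ℝ, 0 ≤ C ∧ ∀ N M : ℕ, 1 ≤ N → N ≤ M →
      ∑ n ∈ Ico N M, s n ≤ C * (N : ℝ) ^ (-(RO.pe m / 2)) := by
    rw [hs]
    exact hAMS a hA
  -- summability
  have hsum : Summable s := by
    obtain ⟨C, hC0, hC⟩ := hAMS' 0
    refine summable_of_sum_range_le (c := s 0 + C) hs0 fun n => ?_
    rcases Nat.eq_zero_or_pos n with rfl | hn
    · rw [sum_range_zero]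
      have := hs0 0
      linarith
    · have h1 := hC 1 n le_rfl hn
      rw [Nat.cast_one, Real.one_rpow, mul_one] at h1
      have h2 : ∑ i ∈ range n, s i = s 0 + ∑ i ∈ Ico 1 n, s i := by
        rw [← Finset.sum_range_add_sum_Ico _ hn, Finset.sum_range_one]
      rw [h2]
      linarith
  have hb : ∀ (t t' : ℝ) (n : ℕ), ‖∫ y in t..t', wv a β γ n y‖ ≤ 2 * s n := by
    intro t t' n
    rw [hs]
    exact int_le a β γ n (ha n) (hγ n) t t'
  have hI : ∀ t t' : ℝ, Summable fun n => ∫ y in t..t', wv a β γ n y := fun t t' =>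
    Summable.of_norm_bounded (hsum.mul_left 2) (hb t t')
  refine ⟨fun t => ∑' n, ∫ y in (0 : ℝ)..t, wv a β γ n y, fun t _ => (hI 0 t).hasSum, ?_⟩
  intro m
  obtain ⟨C, hC0, hC⟩ := hAMS' m
  refine ⟨2 * C, by positivity, ?_⟩
  intro N hN t t' _ _
  have h1 : (∑' n, ∫ y in (0 : ℝ)..t', wv a β γ n y) - (∑' n, ∫ y in (0 : ℝ)..t, wv a β γ n y) =
      ∑' n, ∫ y in t..t', wv a β γ n y := by
    rw [← (hI 0 t').tsum_sub (hI 0 t)]
    refine tsum_congr fun n => ?_
    exact intervalIntegral.integral_interval_sub_left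
      ((wv_cont a β γ n).intervalIntegrable _ _) ((wv_cont a β γ n).intervalIntegrable _ _)
  have h2 : ∫ y in t..t', RO.part (wv a β γ) N y = ∑ n ∈ range N, ∫ y in t..t', wv a β γ n y := by
    unfold RO.part
    exact intervalIntegral.integral_finsetSum fun n _ => (wv_cont a β γ n).intervalIntegrable _ _
  have h3 : (∑' n, ∫ y in t..t', wv a β γ n y) - ∑ n ∈ range N, ∫ y in t..t', wv a β γ n y =
      ∑' n, ∫ y in t..t', wv a β γ (n + N) y := by
    rw [← (hI t t').sum_add_tsum_nat_add N]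
    ring
  have h4 : ∑' n, s (n + N) ≤ C * (N : ℝ) ^ (-(RO.pe m / 2)) := by
    refine Real.tsum_le_of_sum_range_le (fun n => hs0 _) fun k => ?_
    have h5 := hC N (N + k) hN (by omega)
    rw [Finset.sum_Ico_eq_sum_range, Nat.add_sub_cancel_left] at h5
    refine le_trans (le_of_eq ?_) h5
    exact Finset.sum_congr rfl fun i _ => by rw [add_comm]
  have h6 : ‖∑' n, ∫ y in t..t', wv a β γ (n + N) y‖ ≤ 2 * ∑' n, s (n + N) :=
    tsum_of_norm_bounded (((summable_nat_add_iff N).2 hsum).hasSum.mul_left 2)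
      fun n => hb t t' (n + N)
  simp only
  rw [h1, h2, h3, ← Real.norm_eq_abs]
  calc ‖∑' n, ∫ y in t..t', wv a β γ (n + N) y‖ ≤ 2 * ∑' n, s (n + N) := h6
    _ ≤ 2 * (C * (N : ℝ) ^ (-(RO.pe m / 2))) := mul_le_mul_of_nonneg_left h4 (by norm_num)
    _ = _ := by ring

end Pool.Agent.H252.FP
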